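import Pool.Agent.V5helper51.MT.Stm

set_option autoImplicit false

/-!
# Job CM: the circle method inequality on the real line
-/

namespace Pool.Agent.V5helper59.MT.CM

open MeasureTheory Finset Pool.Agent.V5helper51.MT

/-! ### The exponential and the kernel -/

lemma e_add (x y : ℝ) : e (x + y) = e x * e y := by
  unfold e
  rw [← Complex.exp_add]
  congr 1
  push_cast
  ring

lemma norm_e (x : ℝ) : ‖e x‖ = 1 := by
  unfold e
  have : (2 * Real.pi * x * Complex.I : ℂ) = ((2 * Real.pi * x : ℝ) : ℂ) * Complex.I := by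
    push_cast; ring
  rw [this, Complex.norm_exp_ofReal_mul_I]

lemma e_cont : Continuous e := by
  unfold e
  fun_prop

lemma e_conj (x : ℝ) : (starRingEnd ℂ) (e x) = e (-x) := by
  unfold e
  rw [← Complex.exp_conj]
  congr 1
  have h2 : (starRingEnd ℂ) 2 = 2 := map_ofNat _ 2
  rw [map_mul, map_mul, map_mul, Complex.conj_I, Complex.conj_ofReal, Complex.conj_ofReal, h2]
  push_cast
  ring

lemma phi_cont : Continuous φ := by
  unfold φ
  fun_prop

lemma phi_nonneg (t : ℝ) : 0 ≤ φ t := le_max_left _ _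

lemma phi_le_one (t : ℝ) : φ t ≤ 1 := by
  unfold φ
  exact max_le zero_le_one (by linarith [abs_nonneg (2 * t - 1)])

lemma phi_pos_imp {t : ℝ} (h : φ t ≠ 0) : 0 < t ∧ t < 1 := by
  unfold φ at h
  by_contra h2
  apply h
  apply max_eq_left
  rcases not_and_or.1 h2 with h3 | h3
  · have := not_lt.1 h3
    rw [abs_of_neg (by linarith)]
    linarith
  · have := not_lt.1 h3
    rw [abs_of_pos (by linarith)]
    linarith

lemma phi_floor {y : ℝ} {m n : ℤ} (h : φ (y + m - n) ≠ 0) : m + ⌊y⌋ = n := by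
  obtain ⟨h1, h2⟩ := phi_pos_imp h
  have : ⌊y⌋ = n - m := by
    rw [Int.floor_eq_iff]
    push_cast
    constructor <;> linarith
  rw [this]
  ring

lemma count_le {ι : Type} (S T : Finset ι) (s t : ι → ℤ) (X : ℕ) (H : ℝ → ℝ) (n : ℤ) :
    ∑ v ∈ S, ∑ w ∈ T, ∑ z ∈ range X, φ (H z + (s v + t w - n)) ≤
    (((S ×ˢ (T ×ˢ range X)).filter fun p => s p.1 + t p.2.1 + ⌊H p.2.2⌋ = n).card : ℝ) := by
  rw [Finset.card_filter]
  push_cast
  rw [Finset.sum_product]
  refine Finset.sum_le_sum fun v _ => ?_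
  rw [Finset.sum_product]
  refine Finset.sum_le_sum fun w _ => Finset.sum_le_sum fun z _ => ?_
  by_cases h : φ (H z + (s v + t w - n)) = 0
  · rw [h]
    dsimp only
    split_ifs <;> norm_num
  · have h1 : s v + t w + ⌊H z⌋ = n := by
      apply phi_floor (y := H z) (m := s v + t w)
      push_cast
      rwa [add_sub_assoc]
    rw [if_pos h1]
    exact phi_le_one _

/-! ### Orthogonality -/

lemma int_e (m : ℤ) (j : ℕ) :
    ∫ γ in (j : ℝ)..((j + 1 : ℕ) : ℝ), e (γ * m) = if m = 0 then 1 else 0 := by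
  split_ifs with h
  · subst h
    have : ∀ γ : ℝ, e (γ * ((0 : ℤ) : ℝ)) = 1 := by
      intro γ
      simp [e]
    simp_rw [this]
    simp
  · have hc : (2 * Real.pi * m * Complex.I : ℂ) ≠ 0 := by
      have := Real.pi_ne_zero
      simp [h, this]
    have h1 : ∀ γ : ℝ, e (γ * m) = Complex.exp ((2 * Real.pi * m * Complex.I : ℂ) * γ) := by
      intro γ
      unfold e
      congr 1
      push_cast
      ring
    simp_rw [h1]
    rw [integral_exp_mul_complex hc]
    have h2 : Complex.exp ((2 * Real.pi * m * Complex.I : ℂ) * ((j + 1 : ℕ) : ℝ)) =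
        Complex.exp ((2 * Real.pi * m * Complex.I : ℂ) * (j : ℝ)) := by
      have h3 : ((2 * Real.pi * m * Complex.I : ℂ) * ((j + 1 : ℕ) : ℝ)) =
          (2 * Real.pi * m * Complex.I : ℂ) * (j : ℝ) + m * (2 * Real.pi * Complex.I) := by
        push_cast
        ring
      rw [h3, Complex.exp_add, Complex.exp_int_mul_two_pi_mul_I, mul_one]
    rw [h2, sub_self, zero_div]

lemma orth {ι : Type} (S : Finset ι) (s : ι → ℤ) (j : ℕ) :
    ∫ γ in (j : ℝ)..((j + 1 : ℕ) : ℝ), ‖∑ v ∈ S, e (γ * s v)‖ ^ 2 =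
      (((S ×ˢ S).filter fun p => s p.1 = s p.2).card : ℝ) := by
  have hci : ∀ m : ℤ, Continuous fun γ : ℝ => e (γ * m) := fun m =>
    e_cont.comp (continuous_id.mul continuous_const)
  have h1 : ∀ γ : ℝ, ((‖∑ v ∈ S, e (γ * s v)‖ ^ 2 : ℝ) : ℂ) =
      ∑ v ∈ S, ∑ w ∈ S, e (γ * ((s v - s w : ℤ) : ℝ)) := by
    intro γ
    rw [Complex.ofReal_pow, ← Complex.mul_conj', map_sum, Finset.sum_mul_sum]
    refine Finset.sum_congr rfl fun v _ => Finset.sum_congr rfl fun w _ => ?_
    rw [e_conj, ← e_add]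
    congr 1
    push_cast
    ring
  have h2 : ((∫ γ in (j : ℝ)..((j + 1 : ℕ) : ℝ), ‖∑ v ∈ S, e (γ * s v)‖ ^ 2 : ℝ) : ℂ) =
      ((((S ×ˢ S).filter fun p => s p.1 = s p.2).card : ℝ) : ℂ) := by
    rw [← intervalIntegral.integral_ofReal]
    simp_rw [h1]
    rw [intervalIntegral.integral_finsetSum]
    · have h3 : ∀ v ∈ S, ∫ γ in (j : ℝ)..((j + 1 : ℕ) : ℝ), ∑ w ∈ S, e (γ * ((s v - s w : ℤ) : ℝ)) =
          ∑ w ∈ S, if s v = s w then (1 : ℂ) else 0 := by
        intro v _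
        rw [intervalIntegral.integral_finsetSum]
        · refine Finset.sum_congr rfl fun w _ => ?_
          rw [int_e]
          simp only [sub_eq_zero]
        · intro w _
          exact (hci _).intervalIntegrable _ _
      rw [Finset.sum_congr rfl h3, Finset.card_filter]
      push_cast
      rw [Finset.sum_product]
      refine Finset.sum_congr rfl fun v _ => Finset.sum_congr rfl fun w _ => ?_
      dsimp only
      split_ifs <;> simp
    · intro v _
      exact (continuous_finsetSum _ fun w _ => hci _).intervalIntegrable _ _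
  exact_mod_cast h2

lemma orth_neg {ι : Type} (S : Finset ι) (s : ι → ℤ) (j : ℕ) :
    ∫ γ in (j : ℝ)..((j + 1 : ℕ) : ℝ), ‖∑ v ∈ S, e (-γ * s v)‖ ^ 2 =
      (((S ×ˢ S).filter fun p => s p.1 = s p.2).card : ℝ) := by
  have := orth S (fun v => - s v) j
  simp only [neg_inj] at this
  rw [← this]
  congr 1
  funext γ
  congr 2
  refine Finset.sum_congr rfl fun v _ => ?_
  congr 1
  push_cast
  ring

/-! ### The weights -/

lemma inv_tel (j : ℝ) (hj : 1 ≤ j) : 1 / (1 + j ^ 2) ≤ 1 / (j - 1 / 2) - 1 / (j + 1 / 2) := by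
  have h1 : 0 < j - 1 / 2 := by linarith
  have h2 : 0 < j + 1 / 2 := by linarith
  rw [div_sub_div _ _ h1.ne' h2.ne', div_le_div_iff₀ (by positivity) (by positivity)]
  nlinarith

lemma sum_one (N : ℕ) : ∑ j ∈ range N, 1 / (1 + (j : ℝ) ^ 2) ≤ 3 := by
  have h : ∀ M : ℕ, ∑ j ∈ range (M + 1), 1 / (1 + (j : ℝ) ^ 2) ≤ 3 - 1 / ((M : ℝ) + 1 / 2) := by
    intro M
    induction M with
    | zero => norm_num
    | succ M ih =>
      rw [Finset.sum_range_succ]
      have := inv_tel ((M + 1 : ℕ) : ℝ) (by push_cast; linarith [(Nat.cast_nonneg M : (0:ℝ) ≤ M)])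
      have e1 : ((M + 1 : ℕ) : ℝ) - 1 / 2 = (M : ℝ) + 1 / 2 := by push_cast; ring
      rw [e1] at this
      linarith
  rcases N with _ | M
  · norm_num
  · refine (h M).trans ?_
    have : 0 ≤ 1 / ((M : ℝ) + 1 / 2) := by positivity
    linarith

lemma sum_tail (Γ : ℝ) (hΓ : 1 ≤ Γ) (N : ℕ) :
    ∑ j ∈ range N, (1 / (1 + (j : ℝ) ^ 2)) * (if Γ < (j : ℝ) + 1 then 1 else 0) ≤ 4 / Γ := by
  have h : ∀ N : ℕ, ((N : ℝ) ≤ Γ →
      ∑ j ∈ range N, (1 / (1 + (j : ℝ) ^ 2)) * (if Γ < (j : ℝ) + 1 then 1 else 0) = 0) ∧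
      (Γ < (N : ℝ) + 1 → 1 ≤ N →
      ∑ j ∈ range N, (1 / (1 + (j : ℝ) ^ 2)) * (if Γ < (j : ℝ) + 1 then 1 else 0) ≤
        4 / Γ - 1 / ((N : ℝ) - 1 / 2)) := by
    intro N
    induction N with
    | zero => exact ⟨fun _ => by simp, fun _ h => absurd h (by norm_num)⟩
    | succ N ih =>
      have hN : (0 : ℝ) ≤ N := Nat.cast_nonneg N
      have hA : ((N + 1 : ℕ) : ℝ) ≤ Γ → ∑ j ∈ range (N + 1), (1 / (1 + (j : ℝ) ^ 2)) *
          (if Γ < (j : ℝ) + 1 then 1 else 0) = 0 := by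
        intro h1
        push_cast at h1
        rw [Finset.sum_range_succ, ih.1 (by linarith), if_neg (not_lt.2 h1)]
        ring
      refine ⟨hA, fun h1 _ => ?_⟩
      push_cast at h1
      by_cases h2 : Γ < (N : ℝ) + 1
      · have hN1 : 1 ≤ N := by
          rcases Nat.eq_zero_or_pos N with h0 | h0
          · subst h0
            norm_num at h2
            linarith
          · exact h0
        have hN1' : (1 : ℝ) ≤ N := by exact_mod_cast hN1
        rw [Finset.sum_range_succ, if_pos h2, mul_one]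
        have h3 := ih.2 h2 hN1
        have h4 := inv_tel N hN1'
        have e1 : ((N + 1 : ℕ) : ℝ) - 1 / 2 = (N : ℝ) + 1 / 2 := by push_cast; ring
        rw [e1]
        linarith
      · rw [hA (by push_cast; exact not_lt.1 h2)]
        have e1 : ((N + 1 : ℕ) : ℝ) - 1 / 2 = (N : ℝ) + 1 / 2 := by push_cast; ring
        rw [e1, sub_nonneg, div_le_div_iff₀ (by positivity) (by positivity)]
        linarith
  by_cases h1 : (N : ℝ) ≤ Γ
  · rw [(h N).1 h1]
    positivity
  · push Not at h1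
    have hN1 : 1 ≤ N := by
      rcases Nat.eq_zero_or_pos N with h0 | h0
      · subst h0
        norm_num at h1
        linarith
      · exact h0
    refine ((h N).2 (by linarith) hN1).trans ?_
    have hN1' : (1 : ℝ) ≤ N := by exact_mod_cast hN1
    have : 0 ≤ 1 / ((N : ℝ) - 1 / 2) := by
      apply div_nonneg zero_le_one
      linarith
    linarith

/-! ### One half line -/

lemma half (a b D : ℝ → ℝ) (ha : Continuous a) (hb : Continuous b) (hD : Continuous D)
    (ha0 : ∀ γ, 0 ≤ a γ) (hb0 : ∀ γ, 0 ≤ b γ) (hD0 : ∀ γ, 0 ≤ D γ) (E δ X Γ : ℝ)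
    (hA : ∀ j : ℕ, ∫ γ in (j : ℝ)..((j + 1 : ℕ) : ℝ), a γ ^ 2 ≤ E)
    (hB : ∀ j : ℕ, ∫ γ in (j : ℝ)..((j + 1 : ℕ) : ℝ), b γ ^ 2 ≤ E)
    (hE : 0 ≤ E) (hδ : 0 ≤ δ) (hX : 0 ≤ X) (hΓ : 1 ≤ Γ)
    (h1 : ∀ γ, |γ| ≤ Γ → D γ ≤ δ) (h2 : ∀ γ, D γ ≤ 2 * X) (N : ℕ) :
    ∫ γ in (0 : ℝ)..N, 1 / (1 + γ ^ 2) * (a γ * b γ) * D γ ≤ (3 * δ + 8 * X / Γ) * E := by
  have hgc : Continuous fun γ : ℝ => 1 / (1 + γ ^ 2) * (a γ * b γ) * D γ := by
    refine (Continuous.mul ?_ (ha.mul hb)).mul hD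
    refine continuous_const.div (by fun_prop) fun γ => ?_
    positivity
  have hs := intervalIntegral.sum_integral_adjacent_intervals
    (f := fun γ : ℝ => 1 / (1 + γ ^ 2) * (a γ * b γ) * D γ) (μ := volume)
    (a := fun k : ℕ => (k : ℝ)) (n := N) (fun k _ => hgc.intervalIntegrable _ _)
  rw [Nat.cast_zero] at hs
  rw [← hs]
  have hj : ∀ j ∈ range N, ∫ γ in (j : ℝ)..((j + 1 : ℕ) : ℝ),
      1 / (1 + γ ^ 2) * (a γ * b γ) * D γ ≤
      ((1 / (1 + (j : ℝ) ^ 2)) * δ +
        ((1 / (1 + (j : ℝ) ^ 2)) * (if Γ < (j : ℝ) + 1 then 1 else 0)) * (2 * X)) * E := by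
    intro j _
    have hj0 : (0 : ℝ) ≤ j := Nat.cast_nonneg j
    set W : ℝ := δ + (if Γ < (j : ℝ) + 1 then 1 else 0) * (2 * X) with hW
    have hW0 : 0 ≤ W := by
      rw [hW]
      split_ifs <;> linarith
    have hDW : ∀ γ ∈ Set.Icc (j : ℝ) ((j + 1 : ℕ) : ℝ), D γ ≤ W := by
      intro γ hγ
      obtain ⟨g1, g2⟩ := hγ
      push_cast at g2
      rw [hW]
      split_ifs with h
      · linarith [h2 γ]
      · push Not at h
        have := h1 γ (by rw [abs_of_nonneg (by linarith)]; linarith)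
        linarith
    have hm : ∫ γ in (j : ℝ)..((j + 1 : ℕ) : ℝ), 1 / (1 + γ ^ 2) * (a γ * b γ) * D γ ≤
        ∫ γ in (j : ℝ)..((j + 1 : ℕ) : ℝ),
          (1 / (1 + (j : ℝ) ^ 2) * W) * ((a γ ^ 2 + b γ ^ 2) / 2) := by
      apply intervalIntegral.integral_mono_on
      · push_cast; linarith
      · exact hgc.intervalIntegrable _ _
      · exact (continuous_const.mul (((ha.pow 2).add (hb.pow 2)).div_const 2)).intervalIntegrable _ _
      · intro γ hγ
        have hd := hDW γ hγ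
        have g1 := hγ.1
        have w1 : 1 / (1 + γ ^ 2) ≤ 1 / (1 + (j : ℝ) ^ 2) := by
          apply one_div_le_one_div_of_le (by positivity)
          nlinarith
        have w2 : a γ * b γ ≤ (a γ ^ 2 + b γ ^ 2) / 2 := by nlinarith [sq_nonneg (a γ - b γ)]
        have w3 : 0 ≤ a γ * b γ := mul_nonneg (ha0 γ) (hb0 γ)
        calc 1 / (1 + γ ^ 2) * (a γ * b γ) * D γ
            ≤ 1 / (1 + (j : ℝ) ^ 2) * ((a γ ^ 2 + b γ ^ 2) / 2) * W := by
              apply mul_le_mul _ hd (hD0 γ) (by positivity)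
              exact mul_le_mul w1 w2 w3 (by positivity)
          _ = (1 / (1 + (j : ℝ) ^ 2) * W) * ((a γ ^ 2 + b γ ^ 2) / 2) := by ring
    refine hm.trans ?_
    have i1 : IntervalIntegrable (fun γ => a γ ^ 2) volume (j : ℝ) ((j + 1 : ℕ) : ℝ) :=
      (ha.pow 2).intervalIntegrable _ _
    have i2 : IntervalIntegrable (fun γ => b γ ^ 2) volume (j : ℝ) ((j + 1 : ℕ) : ℝ) :=
      (hb.pow 2).intervalIntegrable _ _
    rw [intervalIntegral.integral_const_mul, intervalIntegral.integral_div,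
      intervalIntegral.integral_add i1 i2]
    have h3 : (∫ γ in (j : ℝ)..((j + 1 : ℕ) : ℝ), a γ ^ 2) +
        (∫ γ in (j : ℝ)..((j + 1 : ℕ) : ℝ), b γ ^ 2) ≤ 2 * E := by linarith [hA j, hB j]
    have h4 : 0 ≤ 1 / (1 + (j : ℝ) ^ 2) * W := by positivity
    calc 1 / (1 + (j : ℝ) ^ 2) * W * (((∫ γ in (j : ℝ)..((j + 1 : ℕ) : ℝ), a γ ^ 2) +
        (∫ γ in (j : ℝ)..((j + 1 : ℕ) : ℝ), b γ ^ 2)) / 2)
        ≤ 1 / (1 + (j : ℝ) ^ 2) * W * E := by
          apply mul_le_mul_of_nonneg_left _ h4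
          linarith
      _ = _ := by rw [hW]; ring
  refine (Finset.sum_le_sum hj).trans ?_
  rw [← Finset.sum_mul, Finset.sum_add_distrib, ← Finset.sum_mul, ← Finset.sum_mul]
  apply mul_le_mul_of_nonneg_right _ hE
  have s1 := sum_one N
  have s2 := sum_tail Γ hΓ N
  have s3 := mul_le_mul_of_nonneg_right s1 hδ
  have s4 := mul_le_mul_of_nonneg_right s2 (by linarith : 0 ≤ 2 * X)
  have e1 : 4 / Γ * (2 * X) = 8 * X / Γ := by ring
  rw [e1] at s4
  linarith

/-! ### Fubini -/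

lemma psi_int {ψ : ℝ → ℂ} (hc : Continuous ψ) (hb : ∀ γ, ‖ψ γ‖ ≤ 1 / (1 + γ ^ 2)) {F : ℝ → ℂ}
    (hF : Continuous F) (C : ℝ) (hC : ∀ γ, ‖F γ‖ ≤ C) : Integrable (fun γ => ψ γ * F γ) := by
  refine Integrable.mono' (integrable_inv_one_add_sq.mul_const C)
    (hc.mul hF).aestronglyMeasurable (Filter.Eventually.of_forall fun γ => ?_)
  rw [norm_mul]
  have := hb γ
  rw [one_div] at this
  exact mul_le_mul this (hC γ) (norm_nonneg _) (by positivity)

lemma fub {ψ : ℝ → ℂ} (hc : Continuous ψ) (hb : ∀ γ, ‖ψ γ‖ ≤ 1 / (1 + γ ^ 2))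
    (hψ : ∀ t : ℝ, ((φ t : ℝ) : ℂ) = ∫ γ : ℝ, ψ γ * e (γ * t)) (G : ℝ → ℝ) (hG : Continuous G)
    (X : ℕ) :
    (((∫ u in (0:ℝ)..X, φ (G u)) : ℝ) : ℂ) = ∫ γ : ℝ, ψ γ * ∫ u in (0:ℝ)..X, e (γ * G u) := by
  rw [← intervalIntegral.integral_ofReal]
  have hX : (0:ℝ) ≤ X := Nat.cast_nonneg X
  simp_rw [hψ, intervalIntegral.integral_of_le hX]
  rw [integral_integral_swap]
  · congr 1
    funext γ
    rw [integral_const_mul]
  · have h1 := (integrable_inv_one_add_sq).comp_snd (volume.restrict (Set.Ioc (0:ℝ) X))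
    refine Integrable.mono' h1 ?_ ?_
    · apply Continuous.aestronglyMeasurable
      exact (hc.comp continuous_snd).mul
        (e_cont.comp (continuous_snd.mul (hG.comp continuous_fst)))
    · refine Filter.Eventually.of_forall fun p => ?_
      simp only [Function.uncurry]
      rw [norm_mul, norm_e, mul_one]
      have := hb p.2
      rwa [one_div] at this

/-- the error term -/
noncomputable def Del (X : ℕ) (H : ℝ → ℝ) (γ : ℝ) : ℂ :=
  (∫ u in (0:ℝ)..X, e (γ * H u)) - ∑ z ∈ range X, e (γ * H z)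

lemma Del_cont (X : ℕ) (H : ℝ → ℝ) (hH : Continuous H) : Continuous (Del X H) := by
  unfold Del
  refine Continuous.sub ?_ ?_
  · apply intervalIntegral.continuous_parametric_intervalIntegral_of_continuous'
    exact e_cont.comp (continuous_fst.mul (hH.comp continuous_snd))
  · exact continuous_finsetSum _ fun z _ => e_cont.comp (continuous_id.mul continuous_const)

lemma Del_le (X : ℕ) (H : ℝ → ℝ) (γ : ℝ) : ‖Del X H γ‖ ≤ 2 * X := by
  unfold Del
  have h1 : ‖∫ u in (0:ℝ)..X, e (γ * H u)‖ ≤ 1 * |(X : ℝ) - 0| :=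
    intervalIntegral.norm_integral_le_of_norm_le_const fun u _ => (norm_e _).le
  rw [sub_zero, one_mul, abs_of_nonneg (Nat.cast_nonneg X)] at h1
  have h2 : ‖∑ z ∈ range X, e (γ * H z)‖ ≤ X := by
    refine (norm_sum_le _ _).trans ?_
    simp [norm_e]
  refine (norm_sub_le _ _).trans ?_
  linarith

lemma diff_eq {ψ : ℝ → ℂ} (hc : Continuous ψ) (hb : ∀ γ, ‖ψ γ‖ ≤ 1 / (1 + γ ^ 2))
    (hψ : ∀ t : ℝ, ((φ t : ℝ) : ℂ) = ∫ γ : ℝ, ψ γ * e (γ * t)) (H : ℝ → ℝ) (hH : Continuous H)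
    (X : ℕ) (c : ℝ) :
    (((∫ u in (0:ℝ)..X, φ (H u + c)) - ∑ z ∈ range X, φ (H z + c) : ℝ) : ℂ) =
      ∫ γ : ℝ, ψ γ * (e (γ * c) * Del X H γ) := by
  have hsum : ((∑ z ∈ range X, φ (H z + c) : ℝ) : ℂ) =
      ∫ γ : ℝ, ψ γ * (e (γ * c) * ∑ z ∈ range X, e (γ * H z)) := by
    rw [Complex.ofReal_sum]
    simp_rw [hψ]
    rw [← integral_finsetSum]
    · congr 1
      funext γ
      rw [Finset.mul_sum, Finset.mul_sum]
      refine Finset.sum_congr rfl fun z _ => ?_
      rw [mul_add, e_add]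
      ring
    · intro z _
      exact psi_int hc hb (e_cont.comp (continuous_id.mul continuous_const)) 1
        fun γ => (norm_e _).le
  have hint : (((∫ u in (0:ℝ)..X, φ (H u + c)) : ℝ) : ℂ) =
      ∫ γ : ℝ, ψ γ * (e (γ * c) * ∫ u in (0:ℝ)..X, e (γ * H u)) := by
    rw [fub hc hb hψ (fun u => H u + c) (hH.add continuous_const) X]
    congr 1
    funext γ
    have h1 : ∫ u in (0:ℝ)..X, e (γ * (H u + c)) = e (γ * c) * ∫ u in (0:ℝ)..X, e (γ * H u) := by
      rw [← intervalIntegral.integral_const_mul]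
      apply intervalIntegral.integral_congr
      intro u _
      dsimp only
      rw [mul_add, e_add]
      ring
    rw [h1]
  rw [Complex.ofReal_sub, hsum, hint, ← integral_sub]
  · congr 1
    funext γ
    unfold Del
    ring
  · refine psi_int hc hb (F := fun γ => e (γ * c) * ∫ u in (0:ℝ)..X, e (γ * H u)) ?_ X ?_
    · refine (e_cont.comp (continuous_id.mul continuous_const)).mul ?_
      apply intervalIntegral.continuous_parametric_intervalIntegral_of_continuous'
      exact e_cont.comp (continuous_fst.mul (hH.comp continuous_snd))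
    · intro γ
      rw [norm_mul, norm_e, one_mul]
      have h1 : ‖∫ u in (0:ℝ)..X, e (γ * H u)‖ ≤ 1 * |(X : ℝ) - 0| :=
        intervalIntegral.norm_integral_le_of_norm_le_const fun u _ => (norm_e _).le
      rwa [sub_zero, one_mul, abs_of_nonneg (Nat.cast_nonneg X)] at h1
  · refine psi_int hc hb (F := fun γ => e (γ * c) * ∑ z ∈ range X, e (γ * H z)) ?_ X ?_
    · refine (e_cont.comp (continuous_id.mul continuous_const)).mul ?_
      exact continuous_finsetSum _ fun z _ => e_cont.comp (continuous_id.mul continuous_const)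
    · intro γ
      rw [norm_mul, norm_e, one_mul]
      refine (norm_sum_le _ _).trans ?_
      simp [norm_e]

/-! ### The theorem -/

theorem t_CM (hK : S_KER) : S_CM := by
  intro ι S T s t X H n Γ δ E hH hΓ hδ hΔ hS hT
  obtain ⟨ψ, hc, hb, hψ⟩ := hK
  have hE : 0 ≤ E := le_trans (Nat.cast_nonneg _) hS
  have hX : (0 : ℝ) ≤ X := Nat.cast_nonneg X
  set a : ℝ → ℝ := fun γ => ‖∑ v ∈ S, e (γ * s v)‖ with ha
  set b : ℝ → ℝ := fun γ => ‖∑ w ∈ T, e (γ * t w)‖ with hb'
  have hac : Continuous a := (continuous_finsetSum _ fun v _ =>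
    e_cont.comp (continuous_id.mul continuous_const)).norm
  have hbc : Continuous b := (continuous_finsetSum _ fun v _ =>
    e_cont.comp (continuous_id.mul continuous_const)).norm
  have hDc : Continuous fun γ => ‖Del X H γ‖ := (Del_cont X H hH).norm
  set g : ℝ → ℝ := fun γ => 1 / (1 + γ ^ 2) * (a γ * b γ) * ‖Del X H γ‖ with hg
  have hgc : Continuous g := by
    refine (Continuous.mul ?_ (hac.mul hbc)).mul hDc
    refine continuous_const.div (by fun_prop) fun γ => ?_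
    positivity
  have ha1 : ∀ γ, a γ ≤ S.card := by
    intro γ
    refine (norm_sum_le _ _).trans ?_
    simp [norm_e]
  have hb1 : ∀ γ, b γ ≤ T.card := by
    intro γ
    refine (norm_sum_le _ _).trans ?_
    simp [norm_e]
  have ha0 : ∀ γ, 0 ≤ a γ := fun γ => norm_nonneg _
  have hb0 : ∀ γ, 0 ≤ b γ := fun γ => norm_nonneg _
  have hgi : Integrable g := by
    refine Integrable.mono' (integrable_inv_one_add_sq.mul_const
      ((S.card : ℝ) * T.card * (2 * X))) hgc.aestronglyMeasurable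
      (Filter.Eventually.of_forall fun γ => ?_)
    have h0 : 0 ≤ g γ := by
      have := mul_nonneg (ha0 γ) (hb0 γ)
      rw [hg]
      positivity
    rw [Real.norm_of_nonneg h0, hg]
    dsimp only
    rw [one_div, mul_assoc]
    apply mul_le_mul_of_nonneg_left _ (by positivity)
    exact mul_le_mul (mul_le_mul (ha1 γ) (hb1 γ) (hb0 γ) (by positivity)) (Del_le X H γ)
      (norm_nonneg _) (by positivity)
  -- the difference
  set c : ι → ι → ℝ := fun v w => (s v : ℝ) + t w - n with hcdef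
  have hcv : ∀ v w γ, e (γ * c v w) = e (γ * s v) * e (γ * t w) * e (-γ * n) := by
    intro v w γ
    rw [← e_add, ← e_add]
    congr 1
    rw [hcdef]
    ring
  have hQi : ∀ v w, Integrable fun γ => ψ γ * (e (γ * c v w) * Del X H γ) := by
    intro v w
    refine psi_int hc hb (F := fun γ => e (γ * c v w) * Del X H γ)
      ((e_cont.comp (continuous_id.mul continuous_const)).mul (Del_cont X H hH)) (2 * X) ?_
    intro γ
    rw [norm_mul, norm_e, one_mul]
    exact Del_le X H γ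
  have hD : ((∑ v ∈ S, ∑ w ∈ T, ((∫ u in (0:ℝ)..X, φ (H u + c v w)) -
      ∑ z ∈ range X, φ (H z + c v w)) : ℝ) : ℂ) =
      ∫ γ : ℝ, ∑ v ∈ S, ∑ w ∈ T, ψ γ * (e (γ * c v w) * Del X H γ) := by
    rw [Complex.ofReal_sum, integral_finsetSum]
    · refine Finset.sum_congr rfl fun v _ => ?_
      rw [Complex.ofReal_sum, integral_finsetSum]
      · refine Finset.sum_congr rfl fun w _ => ?_
        exact diff_eq hc hb hψ H hH X (c v w)
      · intro w _
        exact hQi v w
    · intro v _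
      exact integrable_finsetSum _ fun w _ => hQi v w
  have hnorm : ∀ γ, ‖∑ v ∈ S, ∑ w ∈ T, ψ γ * (e (γ * c v w) * Del X H γ)‖ ≤ g γ := by
    intro γ
    have h1 : ∑ v ∈ S, ∑ w ∈ T, ψ γ * (e (γ * c v w) * Del X H γ) =
        ψ γ * (((∑ v ∈ S, e (γ * s v)) * (∑ w ∈ T, e (γ * t w))) * e (-γ * n) * Del X H γ) := by
      rw [Finset.sum_mul_sum, Finset.sum_mul, Finset.sum_mul, Finset.mul_sum]
      refine Finset.sum_congr rfl fun v _ => ?_
      rw [Finset.sum_mul, Finset.sum_mul, Finset.mul_sum]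
      refine Finset.sum_congr rfl fun w _ => ?_
      rw [hcv]
    rw [h1, norm_mul, norm_mul, norm_mul, norm_mul, norm_e, mul_one]
    change ‖ψ γ‖ * (a γ * b γ * ‖Del X H γ‖) ≤ 1 / (1 + γ ^ 2) * (a γ * b γ) * ‖Del X H γ‖
    rw [mul_assoc (1 / (1 + γ ^ 2))]
    apply mul_le_mul_of_nonneg_right (hb γ)
    have := mul_nonneg (ha0 γ) (hb0 γ)
    positivity
  have hDle : ∑ v ∈ S, ∑ w ∈ T, ((∫ u in (0:ℝ)..X, φ (H u + c v w)) -
      ∑ z ∈ range X, φ (H z + c v w)) ≤ ∫ γ, g γ := by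
    have h1 := norm_integral_le_of_norm_le hgi (Filter.Eventually.of_forall hnorm)
    rw [← hD, Complex.norm_real] at h1
    exact (le_abs_self _).trans h1
  -- the bound of the integral
  have hmain : ∀ N : ℕ, ∫ γ in (-(N : ℝ))..N, g γ ≤ 20 * (δ + X / Γ) * E := by
    intro N
    rw [← intervalIntegral.integral_add_adjacent_intervals
      (hgc.intervalIntegrable (-(N:ℝ)) 0) (hgc.intervalIntegrable 0 N)]
    have hpos : ∫ γ in (0:ℝ)..N, g γ ≤ (3 * δ + 8 * X / Γ) * E := by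
      refine half a b (fun γ => ‖Del X H γ‖) hac hbc hDc ha0 hb0 (fun γ => norm_nonneg _) E δ X Γ
        (fun j => ?_) (fun j => ?_) hE hδ hX hΓ ?_ (fun γ => Del_le X H γ) N
      · rw [ha, orth]; exact hS
      · rw [hb', orth]; exact hT
      · intro γ hγ
        unfold Del
        rw [norm_sub_rev]
        exact hΔ γ hγ
    have hneg : ∫ γ in (-(N:ℝ))..0, g γ ≤ (3 * δ + 8 * X / Γ) * E := by
      have h1 : ∫ γ in (-(N:ℝ))..0, g γ = ∫ γ in (0:ℝ)..N, g (-γ) := by
        rw [intervalIntegral.integral_comp_neg, neg_zero]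
      rw [h1]
      have h2 := half (fun γ => a (-γ)) (fun γ => b (-γ)) (fun γ => ‖Del X H (-γ)‖)
        (hac.comp continuous_neg) (hbc.comp continuous_neg) (hDc.comp continuous_neg)
        (fun γ => ha0 _) (fun γ => hb0 _) (fun γ => norm_nonneg _) E δ X Γ
        (fun j => ?_) (fun j => ?_) hE hδ hX hΓ ?_ (fun γ => Del_le X H _) N
      · refine le_trans (le_of_eq ?_) h2
        congr 1
        funext γ
        rw [hg]
        dsimp only
        rw [neg_sq]
      · rw [ha]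
        dsimp only
        rw [orth_neg]; exact hS
      · rw [hb']
        dsimp only
        rw [orth_neg]; exact hT
      · intro γ hγ
        unfold Del
        rw [norm_sub_rev]
        exact hΔ (-γ) (by rwa [abs_neg])
    have h5 : 0 ≤ δ * E := mul_nonneg hδ hE
    have h6 : 0 ≤ X / Γ * E := by positivity
    have h7 : (3 * δ + 8 * X / Γ) * E = 3 * (δ * E) + 8 * (X / Γ * E) := by ring
    have h8 : 20 * (δ + X / Γ) * E = 20 * (δ * E) + 20 * (X / Γ * E) := by ring
    rw [h7] at hpos hneg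
    rw [h8]
    linarith
  have hlim : ∫ γ, g γ ≤ 20 * (δ + X / Γ) * E := by
    have ht := intervalIntegral_tendsto_integral hgi
      (Filter.tendsto_neg_atTop_atBot.comp (tendsto_natCast_atTop_atTop (R := ℝ)))
      (tendsto_natCast_atTop_atTop (R := ℝ))
    exact le_of_tendsto ht (Filter.Eventually.of_forall fun N => hmain N)
  have hcount := count_le S T s t X H n
  have hfin : ∑ v ∈ S, ∑ w ∈ T, ∫ u in (0 : ℝ)..X, φ (H u + s v + t w - n) =
      ∑ v ∈ S, ∑ w ∈ T, ((∫ u in (0:ℝ)..X, φ (H u + c v w)) -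
      ∑ z ∈ range X, φ (H z + c v w)) +
      ∑ v ∈ S, ∑ w ∈ T, ∑ z ∈ range X, φ (H z + (s v + t w - n)) := by
    rw [← Finset.sum_add_distrib]
    refine Finset.sum_congr rfl fun v _ => ?_
    rw [← Finset.sum_add_distrib]
    refine Finset.sum_congr rfl fun w _ => ?_
    rw [hcdef]
    dsimp only
    rw [sub_add_cancel]
    congr 1
    funext u
    congr 1
    ring
  rw [hfin]
  linarith

end Pool.Agent.V5helper59.MT.CM
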