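import Pool.Agent.V5helper51.MT.Stm

set_option autoImplicit false

/-!
# Job KER: Fourier inversion for the triangle function
-/

namespace Pool.Agent.V5helper59.MT.KER

open MeasureTheory Complex Pool.Agent.V5helper51.MT
open scoped FourierTransform Real

/-- the kernel with complex values -/
noncomputable def f (t : ℝ) : ℂ := ((φ t : ℝ) : ℂ)

lemma phi_cont : Continuous φ := by
  unfold φ
  fun_prop

lemma f_cont : Continuous f := by
  unfold f
  exact continuous_ofReal.comp phi_cont

lemma phi_nonneg (t : ℝ) : 0 ≤ φ t := le_max_left _ _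

lemma phi_zero {t : ℝ} (h : t ∉ Set.Ioc (0:ℝ) 1) : φ t = 0 := by
  unfold φ
  rw [Set.mem_Ioc, not_and_or, not_lt, not_le] at h
  apply max_eq_left
  rcases h with h | h
  · rw [abs_of_neg (by linarith)]; linarith
  · rw [abs_of_pos (by linarith)]; linarith

lemma f_supp : HasCompactSupport f :=
  HasCompactSupport.intro (isCompact_Icc (a := (0:ℝ)) (b := 1)) (fun t ht => by
    have : t ∉ Set.Ioc (0:ℝ) 1 := fun h => ht (Set.Ioc_subset_Icc_self h)
    simp [f, phi_zero this])

lemma f_int : Integrable f := f_cont.integrable_of_hasCompactSupport f_supp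

lemma split (F : ℝ → ℂ) (hF : Continuous F) :
    ∫ t, F t * f t = (∫ t in (0:ℝ)..(1/2), F t * (2 * (t:ℂ))) +
      ∫ t in (1/2:ℝ)..1, F t * (2 - 2 * (t:ℂ)) := by
  have h1 : ∫ t, F t * f t = ∫ t in (0:ℝ)..1, F t * f t := by
    rw [intervalIntegral.integral_of_le zero_le_one]
    symm
    apply setIntegral_eq_integral_of_forall_compl_eq_zero
    intro x hx
    simp [f, phi_zero hx]
  have hi : ∀ a b : ℝ, IntervalIntegrable (fun t => F t * f t) volume a b :=
    fun a b => (hF.mul f_cont).intervalIntegrable a b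
  rw [h1, ← intervalIntegral.integral_add_adjacent_intervals (hi 0 (1/2)) (hi (1/2) 1)]
  congr 1
  · apply intervalIntegral.integral_congr
    intro t ht
    rw [Set.uIcc_of_le (by norm_num)] at ht
    have : φ t = 2 * t := by
      unfold φ
      rw [abs_of_nonpos (by linarith [ht.2]), max_eq_right (by linarith [ht.1])]
      ring
    simp [f, this]
  · apply intervalIntegral.integral_congr
    intro t ht
    rw [Set.uIcc_of_le (by norm_num)] at ht
    have : φ t = 2 - 2 * t := by
      unfold φ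
      rw [abs_of_nonneg (by linarith [ht.1]), max_eq_right (by linarith [ht.2])]
      ring
    simp [f, this]

lemma int1 (c : ℂ) (hc : c ≠ 0) :
    ∫ t in (0:ℝ)..(1/2), Complex.exp (c * t) * (2 * (t:ℂ)) =
      2 * (Complex.exp (c / 2) * (1 / (2 * c) - 1 / c ^ 2) + 1 / c ^ 2) := by
  have h : ∀ t ∈ Set.uIcc (0:ℝ) (1/2), HasDerivAt
      (fun t : ℝ => 2 * (Complex.exp (c * t) * ((t:ℂ) / c - 1 / c ^ 2)))
      (Complex.exp (c * t) * (2 * (t:ℂ))) t := by
    intro t _
    have h1 : HasDerivAt (fun t : ℝ => c * (t:ℂ)) c t := by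
      simpa using (Complex.ofRealCLM.hasDerivAt (x := t)).const_mul c
    have h2 := h1.cexp
    have h3 : HasDerivAt (fun t : ℝ => (t:ℂ) / c - 1 / c ^ 2) (1 / c) t := by
      simpa using ((Complex.ofRealCLM.hasDerivAt (x := t)).div_const c).sub_const (1 / c ^ 2)
    have h4 := (h2.mul h3).const_mul 2
    refine h4.congr_deriv ?_
    field_simp
    ring
  rw [intervalIntegral.integral_eq_sub_of_hasDerivAt h]
  · push_cast
    have e1 : c * (1 / 2) = c / 2 := by ring
    rw [e1, mul_zero, Complex.exp_zero]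
    field_simp
    ring
  · apply Continuous.intervalIntegrable
    fun_prop

lemma int2 (c : ℂ) (hc : c ≠ 0) :
    ∫ t in (1/2:ℝ)..1, Complex.exp (c * t) * (2 - 2 * (t:ℂ)) =
      2 * (Complex.exp c / c ^ 2 - Complex.exp (c / 2) * (1 / (2 * c) + 1 / c ^ 2)) := by
  have h : ∀ t ∈ Set.uIcc (1/2:ℝ) 1, HasDerivAt
      (fun t : ℝ => 2 * (Complex.exp (c * t) * ((1 - (t:ℂ)) / c + 1 / c ^ 2)))
      (Complex.exp (c * t) * (2 - 2 * (t:ℂ))) t := by
    intro t _
    have h1 : HasDerivAt (fun t : ℝ => c * (t:ℂ)) c t := by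
      simpa using (Complex.ofRealCLM.hasDerivAt (x := t)).const_mul c
    have h2 := h1.cexp
    have h3 : HasDerivAt (fun t : ℝ => (1 - (t:ℂ)) / c + 1 / c ^ 2) (-1 / c) t := by
      simpa using (((Complex.ofRealCLM.hasDerivAt (x := t)).const_sub 1).div_const c).add_const
        (1 / c ^ 2)
    have h4 := (h2.mul h3).const_mul 2
    refine h4.congr_deriv ?_
    field_simp
    ring
  rw [intervalIntegral.integral_eq_sub_of_hasDerivAt h]
  · push_cast
    have e1 : c * (1 / 2) = c / 2 := by ring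
    rw [e1, mul_one]
    field_simp
    ring
  · apply Continuous.intervalIntegrable
    fun_prop

lemma fourier_formula (γ : ℝ) :
    𝓕 f γ = ∫ t : ℝ, Complex.exp ((-2 * π * γ * I : ℂ) * t) * f t := by
  rw [Real.fourier_real_eq_integral_exp_smul]
  congr 1
  funext t
  rw [smul_eq_mul]
  congr 2
  push_cast
  ring

lemma bound_large {γ : ℝ} (hγ : γ ≠ 0) : ‖𝓕 f γ‖ ≤ 2 / (π ^ 2 * γ ^ 2) := by
  have hc : (-2 * π * γ * I : ℂ) ≠ 0 := by
    have := Real.pi_ne_zero
    simp [hγ, this]
  set c : ℂ := -2 * π * γ * I with hcdef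
  rw [fourier_formula, split _ (by fun_prop), int1 c hc, int2 c hc]
  have e1 : Complex.exp c = Complex.exp (c / 2) ^ 2 := by
    rw [← Complex.exp_nat_mul]
    congr 1
    push_cast
    ring
  have e2 : 2 * (Complex.exp (c / 2) * (1 / (2 * c) - 1 / c ^ 2) + 1 / c ^ 2) +
      2 * (Complex.exp c / c ^ 2 - Complex.exp (c / 2) * (1 / (2 * c) + 1 / c ^ 2)) =
      2 * (1 - Complex.exp (c / 2)) ^ 2 / c ^ 2 := by
    rw [e1]
    field_simp
    ring
  rw [e2, norm_div, norm_mul, norm_pow, norm_pow]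
  have h1 : ‖c‖ = 2 * π * |γ| := by
    rw [hcdef]
    simp [abs_of_pos Real.pi_pos]
  have h2 : ‖Complex.exp (c / 2)‖ = 1 := by
    have : c / 2 = ((-π * γ : ℝ) : ℂ) * I := by
      rw [hcdef]; push_cast; ring
    rw [this, Complex.norm_exp_ofReal_mul_I]
  have h3 : ‖1 - Complex.exp (c / 2)‖ ≤ 2 := by
    refine (norm_sub_le _ _).trans ?_
    rw [h2]; norm_num
  have h4 : ‖1 - Complex.exp (c / 2)‖ ^ 2 ≤ 4 := by
    nlinarith [norm_nonneg (1 - Complex.exp (c / 2))]
  rw [h1]
  have h5 : (2 * π * |γ|) ^ 2 = 4 * (π ^ 2 * γ ^ 2) := by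
    rw [mul_pow, mul_pow, sq_abs]; ring
  have hpos : 0 < π ^ 2 * γ ^ 2 := by
    have := Real.pi_pos
    positivity
  rw [h5, div_le_div_iff₀ (by positivity) hpos]
  have h6 : ‖(2:ℂ)‖ = 2 := by simp
  rw [h6]
  nlinarith

lemma bound_small (γ : ℝ) : ‖𝓕 f γ‖ ≤ 1 / 2 := by
  rw [fourier_formula]
  refine (norm_integral_le_integral_norm _).trans ?_
  have h1 : ∀ t : ℝ, ‖Complex.exp ((-2 * π * γ * I : ℂ) * t) * f t‖ = φ t := by
    intro t
    rw [norm_mul]
    have : (-2 * π * γ * I : ℂ) * t = ((-2 * π * γ * t : ℝ) : ℂ) * I := by push_cast; ring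
    rw [this, Complex.norm_exp_ofReal_mul_I, one_mul]
    unfold f
    rw [Complex.norm_real, Real.norm_of_nonneg (phi_nonneg t)]
  simp_rw [h1]
  have h2 : ((∫ t, φ t : ℝ) : ℂ) = 1 / 2 := by
    rw [← integral_complex_ofReal]
    have h3 := split (fun _ => 1) continuous_const
    simp only [one_mul] at h3
    change ∫ t, f t = _
    rw [h3]
    have e1 : ∫ t in (0:ℝ)..(1/2), (2 * (t:ℂ)) = 1 / 4 := by
      have : ∀ t : ℝ, (2 * (t:ℂ)) = ((2 * t : ℝ) : ℂ) := fun t => by push_cast; ring
      simp_rw [this]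
      rw [intervalIntegral.integral_ofReal, intervalIntegral.integral_const_mul, integral_id]
      norm_num
    have e2 : ∫ t in (1/2:ℝ)..1, (2 - 2 * (t:ℂ)) = 1 / 4 := by
      have : ∀ t : ℝ, (2 - 2 * (t:ℂ)) = ((2 - 2 * t : ℝ) : ℂ) := fun t => by push_cast; ring
      simp_rw [this]
      rw [intervalIntegral.integral_ofReal, intervalIntegral.integral_sub (by simp)
        (by apply Continuous.intervalIntegrable; fun_prop),
        intervalIntegral.integral_const_mul, integral_id]
      norm_num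
    rw [e1, e2]
    norm_num
  have h3 : (∫ t, φ t : ℝ) = 1 / 2 := by
    have : ((∫ t, φ t : ℝ) : ℂ) = ((1 / 2 : ℝ) : ℂ) := by rw [h2]; norm_num
    exact_mod_cast this
  rw [h3]

lemma bound (γ : ℝ) : ‖𝓕 f γ‖ ≤ 1 / (1 + γ ^ 2) := by
  by_cases h : γ ^ 2 ≤ 1
  · refine (bound_small γ).trans ?_
    rw [div_le_div_iff₀ (by norm_num) (by positivity)]
    linarith
  · push Not at h
    have hγ : γ ≠ 0 := by
      rintro rfl
      norm_num at h
    refine (bound_large hγ).trans ?_
    have h3 := Real.pi_gt_three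
    have h4 : 9 < π ^ 2 := by nlinarith
    rw [div_le_div_iff₀ (by positivity) (by positivity)]
    nlinarith

theorem t_KER : S_KER := by
  have hcont : Continuous (𝓕 f) :=
    VectorFourier.fourierIntegral_continuous Real.continuous_fourierChar
      (by exact continuous_inner) f_int
  have hint : Integrable (𝓕 f) := by
    refine Integrable.mono' (integrable_inv_one_add_sq) hcont.aestronglyMeasurable
      (Filter.Eventually.of_forall fun γ => ?_)
    simpa [one_div] using bound γ
  refine ⟨𝓕 f, hcont, bound, fun t => ?_⟩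
  have h1 := f_int.fourierInv_fourier_eq hint (f_cont.continuousAt (x := t))
  change f t = _
  rw [← h1, Real.fourierInv_eq']
  congr 1
  funext γ
  rw [smul_eq_mul, mul_comm]
  congr 1
  unfold e
  congr 1
  simp
  ring

end Pool.Agent.V5helper59.MT.KER
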